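import Mathlib
import Pool.Agent.R612.SU.Stm

/-!
# PIECE SL of MP_ae4adf_co: density from one-sided slopes
-/

open MeasureTheory Set Filter Topology

namespace Pool.Agent.R193.SU

open Pool.Agent.R612.SU

theorem graph_null (l : ℝ → ℝ) (hl : Measurable l) :
    volume {z : ℂ | z.re = l z.im} = 0 := by
  have hmeas : MeasurableSet {p : ℝ × ℝ | p.2 = l p.1} :=
    measurableSet_eq_fun measurable_snd (hl.comp measurable_fst)
  have h1 : volume {p : ℝ × ℝ | p.2 = l p.1} = 0 := by
    rw [Measure.volume_eq_prod, Measure.measure_prod_null hmeas]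
    refine Eventually.of_forall fun x => ?_
    have : (Prod.mk x ⁻¹' {p : ℝ × ℝ | p.2 = l p.1}) = {l x} := by
      ext y
      simp
    show volume (Prod.mk x ⁻¹' {p : ℝ × ℝ | p.2 = l p.1}) = 0
    rw [this]
    simp
  have h2 : MeasurePreserving (fun z : ℂ => (z.im, z.re)) volume volume := by
    have ha := Complex.volume_preserving_equiv_real_prod
    have hb : MeasurePreserving (Prod.swap : ℝ × ℝ → ℝ × ℝ) volume volume :=
      Measure.measurePreserving_swap
    exact hb.comp ha
  have h3 := h2.measure_preimage hmeas.nullMeasurableSet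
  rw [h1] at h3
  exact h3

theorem vol_ball (p : ℂ) : volume (Metric.ball p 1) = ENNReal.ofReal Real.pi := by
  rw [Complex.volume_ball]
  simp [ENNReal.ofReal]
  ext
  simp [Real.pi_pos.le]

/-- the cone set -/
def cs (s1 s2 : ℝ) : Set ℂ :=
  {z : ℂ | (0 ≤ z.im → z.re ≤ s1 * z.im) ∧ (z.im ≤ 0 → z.re ≤ s2 * z.im)}

/-- the boundary function of the cone -/
noncomputable def ll (s1 s2 h : ℝ) : ℝ := s1 * max h 0 + s2 * min h 0

theorem cs_eq (s1 s2 : ℝ) : cs s1 s2 = {z : ℂ | z.re ≤ ll s1 s2 z.im} := by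
  ext z
  unfold cs ll
  simp only [mem_ofPred_eq]
  rcases le_total 0 z.im with h | h
  · rw [max_eq_left h, min_eq_right h]
    constructor
    · intro hz
      have := hz.1 h
      linarith
    · intro hz
      refine ⟨fun _ => by linarith, fun h' => ?_⟩
      have h0 : z.im = 0 := le_antisymm h' h
      rw [h0] at hz ⊢
      linarith
  · rw [max_eq_right h, min_eq_left h]
    constructor
    · intro hz
      have := hz.2 h
      linarith
    · intro hz
      refine ⟨fun h' => ?_, fun _ => by linarith⟩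
      have h0 : z.im = 0 := le_antisymm h h'
      rw [h0] at hz ⊢
      linarith

theorem ll_cont (s1 s2 : ℝ) : Continuous (ll s1 s2) := by
  unfold ll
  fun_prop

theorem cs_meas (s1 s2 : ℝ) : MeasurableSet (cs s1 s2) := by
  rw [cs_eq]
  exact measurableSet_le Complex.measurable_re
    ((ll_cont s1 s2).measurable.comp Complex.measurable_im)

/-- the rescaled set -/
def Sr (w : ℝ → ℝ) (y0 r : ℝ) : Set ℂ :=
  {z : ℂ | w y0 + r * z.re ≤ w (y0 + r * z.im)} ∩ Metric.ball 0 1

theorem Sr_meas {w : ℝ → ℝ} (hw : Continuous w) (y0 r : ℝ) : MeasurableSet (Sr w y0 r) := by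
  unfold Sr
  refine MeasurableSet.inter ?_ measurableSet_ball
  apply measurableSet_le
  · exact (by fun_prop : Continuous fun z : ℂ => w y0 + r * z.re).measurable
  · exact (by fun_prop : Continuous fun z : ℂ => w (y0 + r * z.im)).measurable

theorem scale {w : ℝ → ℝ} {y0 r0 r : ℝ} {T : Set ℂ} (hr : 0 < r) (hr0 : r ≤ r0)
    (hT : T ∩ Metric.ball (⟨w y0, y0⟩ : ℂ) r0
      = {z | z.re ≤ w z.im} ∩ Metric.ball (⟨w y0, y0⟩ : ℂ) r0) :
    (volume (T ∩ Metric.ball (⟨w y0, y0⟩ : ℂ) r)).toReal / (Real.pi * r ^ 2)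
      = (volume (Sr w y0 r)).toReal / Real.pi := by
  set p : ℂ := ⟨w y0, y0⟩ with hp
  have hTr : T ∩ Metric.ball p r = {z | z.re ≤ w z.im} ∩ Metric.ball p r := by
    have h1 : Metric.ball p r0 ∩ Metric.ball p r = Metric.ball p r :=
      inter_eq_right.2 (Metric.ball_subset_ball hr0)
    calc T ∩ Metric.ball p r = (T ∩ Metric.ball p r0) ∩ Metric.ball p r := by
          rw [inter_assoc, h1]
      _ = ({z | z.re ≤ w z.im} ∩ Metric.ball p r0) ∩ Metric.ball p r := by rw [hT]
      _ = _ := by rw [inter_assoc, h1]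
  have hS : Sr w y0 r = (r • ·) ⁻¹' ((p + ·) ⁻¹' (T ∩ Metric.ball p r)) := by
    rw [hTr]
    ext z
    simp only [Sr, mem_inter_iff, mem_ofPred_eq, mem_preimage, Metric.mem_ball, dist_zero_right]
    have e1 : (p + r • z).re = w y0 + r * z.re := by simp [hp]
    have e2 : (p + r • z).im = y0 + r * z.im := by simp [hp]
    have e3 : dist (p + r • z) p = r * ‖z‖ := by
      rw [dist_eq_norm, add_sub_cancel_left, norm_smul, Real.norm_of_nonneg hr.le]
    rw [e1, e2, e3]
    refine and_congr_right fun _ => ?_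
    constructor
    · intro h
      nlinarith
    · intro h
      by_contra hc
      push Not at hc
      nlinarith
  rw [hS, Measure.addHaar_preimage_smul _ hr.ne', measure_preimage_add, ENNReal.toReal_mul,
    ENNReal.toReal_ofReal (abs_nonneg _), Complex.finrank_real_complex, abs_inv,
    abs_of_pos (by positivity : 0 < r ^ 2)]
  have hpi := Real.pi_pos
  field_simp

theorem lim_pos {w : ℝ → ℝ} {y0 s : ℝ}
    (h : Tendsto (fun h => (w (y0 + h) - w y0) / h) (𝓝[>] 0) (𝓝 s)) {b : ℝ} (hb : 0 < b) :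
    Tendsto (fun r => (w (y0 + r * b) - w y0) / r) (𝓝[>] 0) (𝓝 (s * b)) := by
  have h1 : Tendsto (fun r : ℝ => r * b) (𝓝[>] 0) (𝓝[>] 0) := by
    rw [tendsto_nhdsWithin_iff]
    refine ⟨?_, ?_⟩
    · have : Tendsto (fun r : ℝ => r * b) (𝓝 0) (𝓝 (0 * b)) := tendsto_id.mul_const b
      rw [zero_mul] at this
      exact this.mono_left nhdsWithin_le_nhds
    · filter_upwards [self_mem_nhdsWithin] with r hr
      exact mul_pos hr hb
  have h2 := (h.comp h1).mul_const b
  refine h2.congr' ?_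
  filter_upwards [self_mem_nhdsWithin] with r hr
  have hr' : (0 : ℝ) < r := hr
  simp only [Function.comp]
  field_simp

theorem lim_neg {w : ℝ → ℝ} {y0 s : ℝ}
    (h : Tendsto (fun h => (w (y0 + h) - w y0) / h) (𝓝[<] 0) (𝓝 s)) {b : ℝ} (hb : b < 0) :
    Tendsto (fun r => (w (y0 + r * b) - w y0) / r) (𝓝[>] 0) (𝓝 (s * b)) := by
  have h1 : Tendsto (fun r : ℝ => r * b) (𝓝[>] 0) (𝓝[<] 0) := by
    rw [tendsto_nhdsWithin_iff]
    refine ⟨?_, ?_⟩
    · have : Tendsto (fun r : ℝ => r * b) (𝓝 0) (𝓝 (0 * b)) := tendsto_id.mul_const b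
      rw [zero_mul] at this
      exact this.mono_left nhdsWithin_le_nhds
    · filter_upwards [self_mem_nhdsWithin] with r hr
      exact mul_neg_of_pos_of_neg hr hb
  have h2 := (h.comp h1).mul_const b
  refine h2.congr' ?_
  filter_upwards [self_mem_nhdsWithin] with r hr
  have hr' : (0 : ℝ) < r := hr
  have hb' : b ≠ 0 := hb.ne
  simp only [Function.comp]
  field_simp

theorem ae_lim {w : ℝ → ℝ} {y0 s1 s2 : ℝ}
    (h1 : Tendsto (fun h => (w (y0 + h) - w y0) / h) (𝓝[>] 0) (𝓝 s1))
    (h2 : Tendsto (fun h => (w (y0 + h) - w y0) / h) (𝓝[<] 0) (𝓝 s2)) :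
    ∀ᵐ z : ℂ, ∀ᶠ r in 𝓝[>] (0 : ℝ), (z ∈ Sr w y0 r ↔ z ∈ cs s1 s2 ∩ Metric.ball 0 1) := by
  have hnull : ∀ᵐ z : ℂ, ¬ (z.re = ll s1 s2 z.im) := by
    rw [ae_iff]
    simpa using graph_null _ (ll_cont s1 s2).measurable
  filter_upwards [hnull] with z hz
  have hlim : Tendsto (fun r => (w (y0 + r * z.im) - w y0) / r) (𝓝[>] 0)
      (𝓝 (ll s1 s2 z.im)) := by
    rcases lt_trichotomy z.im 0 with h | h | h
    · have := lim_neg h2 h
      simpa [ll, max_eq_right h.le, min_eq_left h.le] using this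
    · simp [ll, h]
    · have := lim_pos h1 h
      simpa [ll, max_eq_left h.le, min_eq_right h.le] using this
  rw [cs_eq]
  rcases lt_or_gt_of_ne hz with h | h
  · filter_upwards [hlim.eventually (Ioi_mem_nhds h), self_mem_nhdsWithin] with r hr hr0
    have hr0' : (0 : ℝ) < r := hr0
    have hr1 : z.re < (w (y0 + r * z.im) - w y0) / r := hr
    rw [lt_div_iff₀ hr0'] at hr1
    simp only [Sr, mem_inter_iff, mem_ofPred_eq]
    refine and_congr_left fun _ => ?_
    exact ⟨fun _ => h.le, fun _ => by linarith⟩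
  · filter_upwards [hlim.eventually (Iio_mem_nhds h), self_mem_nhdsWithin] with r hr hr0
    have hr0' : (0 : ℝ) < r := hr0
    have hr1 : (w (y0 + r * z.im) - w y0) / r < z.re := hr
    rw [div_lt_iff₀ hr0'] at hr1
    simp only [Sr, mem_inter_iff, mem_ofPred_eq]
    refine and_congr_left fun _ => ?_
    exact ⟨fun hh => by linarith, fun hh => by linarith⟩

theorem sl1 (w : ℝ → ℝ) (y0 s1 s2 r0 : ℝ) (T : Set ℂ) (hw : Continuous w) (hr0 : 0 < r0)
    (hT : T ∩ Metric.ball (⟨w y0, y0⟩ : ℂ) r0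
      = {z | z.re ≤ w z.im} ∩ Metric.ball (⟨w y0, y0⟩ : ℂ) r0)
    (h1 : Tendsto (fun h => (w (y0 + h) - w y0) / h) (𝓝[>] 0) (𝓝 s1))
    (h2 : Tendsto (fun h => (w (y0 + h) - w y0) / h) (𝓝[<] 0) (𝓝 s2)) :
    HasDens T ⟨w y0, y0⟩ (cone s1 s2) := by
  unfold HasDens
  have hlim : Tendsto (fun r => volume (Sr w y0 r)) (𝓝[>] 0)
      (𝓝 (volume (cs s1 s2 ∩ Metric.ball 0 1))) := by
    refine tendsto_measure_of_ae_tendsto_indicator (L := 𝓝[>] (0 : ℝ)) (B := Metric.ball 0 1)
      ((cs_meas s1 s2).inter measurableSet_ball) (fun r => Sr_meas hw y0 r) measurableSet_ball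
      ?_ ?_ (ae_lim h1 h2)
    · rw [vol_ball]
      exact ENNReal.ofReal_ne_top
    · exact Eventually.of_forall fun r => inter_subset_right
  have hfin : volume (cs s1 s2 ∩ Metric.ball 0 1) ≠ ⊤ := by
    refine ne_top_of_le_ne_top ?_ (measure_mono inter_subset_right)
    rw [vol_ball]
    exact ENNReal.ofReal_ne_top
  have hlim2 := ((ENNReal.tendsto_toReal hfin).comp hlim).div_const Real.pi
  refine hlim2.congr' ?_
  have hnear : ∀ᶠ r in 𝓝[>] (0 : ℝ), r ≤ r0 := by
    have : ∀ᶠ r in 𝓝 (0 : ℝ), r < r0 := Iio_mem_nhds hr0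
    exact (this.filter_mono nhdsWithin_le_nhds).mono fun r hr => le_of_lt hr
  filter_upwards [hnear, self_mem_nhdsWithin] with r hr hr'
  exact (scale hr' hr hT).symm

theorem sl2 (s : ℝ) : cone s s = 1 / 2 := by
  have hset : {z : ℂ | (0 ≤ z.im → z.re ≤ s * z.im) ∧ (z.im ≤ 0 → z.re ≤ s * z.im)}
      = {z : ℂ | z.re ≤ s * z.im} := by
    ext z
    simp only [mem_ofPred_eq]
    constructor
    · intro h
      rcases le_total 0 z.im with h' | h'
      · exact h.1 h'
      · exact h.2 h'
    · intro h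
      exact ⟨fun _ => h, fun _ => h⟩
  unfold cone
  rw [hset]
  set A : Set ℂ := {z : ℂ | z.re ≤ s * z.im} ∩ Metric.ball 0 1 with hA
  set A' : Set ℂ := {z : ℂ | s * z.im ≤ z.re} ∩ Metric.ball 0 1 with hA'
  have hAA : volume A' = volume A := by
    have h1 : A' = Neg.neg ⁻¹' A := by
      ext z
      simp only [hA, hA', mem_inter_iff, mem_ofPred_eq, mem_preimage, Complex.neg_re,
        Complex.neg_im, Metric.mem_ball, dist_zero_right, norm_neg]
      refine and_congr_left fun _ => ?_
      constructor <;> intro h <;> linarith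
    rw [h1]
    exact Measure.measure_preimage_neg volume A
  have hmA : MeasurableSet A := by
    refine MeasurableSet.inter ?_ measurableSet_ball
    exact measurableSet_le Complex.measurable_re (Complex.measurable_im.const_mul s)
  have hun : A ∪ A' = Metric.ball 0 1 := by
    rw [hA, hA', ← union_inter_distrib_right]
    apply inter_eq_right.2
    intro z _
    rcases le_total z.re (s * z.im) with h | h
    · exact Or.inl h
    · exact Or.inr h
  have hin : volume (A ∩ A') = 0 := by
    refine measure_mono_null ?_ (graph_null (fun y => s * y) (by fun_prop))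
    rintro z ⟨hz1, hz2⟩
    exact le_antisymm hz1.1 hz2.1
  have h := measure_union_add_inter' hmA (μ := volume) A'
  rw [hun, hin, hAA, add_zero, vol_ball] at h
  have hfin : volume A ≠ ⊤ := by
    refine ne_top_of_le_ne_top ?_ (measure_mono (inter_subset_right : A ⊆ Metric.ball 0 1))
    rw [vol_ball]
    exact ENNReal.ofReal_ne_top
  have h' := congrArg ENNReal.toReal h
  rw [ENNReal.toReal_ofReal Real.pi_pos.le, ENNReal.toReal_add hfin hfin] at h'
  have hpi := Real.pi_pos
  rw [div_eq_div_iff hpi.ne' two_ne_zero]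
  linarith

theorem sl3 (s : ℝ) : cone (-s) s = th s := by
  unfold cone th
  congr 4
  ext z
  simp only [mem_ofPred_eq]
  rcases le_total 0 z.im with h | h
  · rw [abs_of_nonneg h]
    constructor
    · intro hz
      have := hz.1 h
      linarith
    · intro hz
      refine ⟨fun _ => by linarith, fun h' => ?_⟩
      have h0 : z.im = 0 := le_antisymm h' h
      rw [h0] at hz ⊢
      linarith
  · rw [abs_of_nonpos h]
    constructor
    · intro hz
      have := hz.2 h
      linarith
    · intro hz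
      refine ⟨fun h' => ?_, fun _ => by linarith⟩
      have h0 : z.im = 0 := le_antisymm h h'
      rw [h0] at hz ⊢
      linarith

/-- PIECE SL. -/
theorem stSL : StSL := ⟨sl1, sl2, sl3⟩

end Pool.Agent.R193.SU
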